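import Pool.Agent.H628R5.SN.Final

/-!
# For how many oracles are non-uniform `SC` and non-uniform `NC` comparable?

Layered circuits with oracle gates. For every gauge `f`, the set of the oracles `A` for which the
non-uniform classes `SC^A` and `NC^A` are equal, and the set of those for which one of them contains
the other one, are null sets for `f` if and only if for every `ε > 0` there are infinitely many `N`
with `f N ≤ 2 ^ ((log N) ^ ε)`. The same holds for every set of oracles which is contained in the
latter set and which contains every oracle `A` such that every function in `P^A/poly` is computed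
by single oracle gates.
-/

set_option autoImplicit false

namespace Pool.Agent.Results.MP_2af48a_lc.GaugeThreshold

open Pool.Agent.H620R2.Gauge Pool.Agent.H628R5.SN

theorem result (f : ℕ → ℝ) :
    (∀ O : Set Oracle,
      (∀ A : Oracle, (∀ g, InPpoly A g → InOne A g) → A ∈ O) →
      (∀ A ∈ O, (∀ g, InNC A g → InSC A g) ∨ (∀ g, InSC A g → InNC A g)) →
      (Null f O ↔
        ∀ ε : ℝ, 0 < ε → ∃ᶠ N : ℕ in Filter.atTop, f N ≤ 2 ^ (Real.logb 2 N) ^ ε)) ∧
    (Null f {A : Oracle | ∀ g, InSC A g ↔ InNC A g} ↔
      ∀ ε : ℝ, 0 < ε → ∃ᶠ N : ℕ in Filter.atTop, f N ≤ 2 ^ (Real.logb 2 N) ^ ε) ∧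
    (Null f {A : Oracle | (∀ g, InSC A g → InNC A g) ∨ (∀ g, InNC A g → InSC A g)} ↔
      ∀ ε : ℝ, 0 < ε → ∃ᶠ N : ℕ in Filter.atTop, f N ≤ 2 ^ (Real.logb 2 N) ^ ε) :=
  resultC f

end Pool.Agent.Results.MP_2af48a_lc.GaugeThreshold
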