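import Pool.Agent.H870R2.LS.MainT
import Pool.Agent.H870R2.LS.SCUp
import Pool.Agent.H870R2.LS.SymT

set_option autoImplicit false

/-! # Local symmetry: SC versus NC

The template function `Tem H n` reads a path system on `5 H (n + 1) ^ 2 + 1` elements, all of whose
rules lead from the labels of the two fixed predecessors of a place to the labels of the place
(five labels for each of the `H (n + 1) ^ 2` places, which are arranged in `H` rows), and says if
its target is derivable.

(1) It is computed by layered circuits of width `150 (n + 1)` with `2 H (n + 1) + 2` layers and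
gates of fan-in at most `25` that are symmetric under all permutations of the labels of each place.
(2) Every circuit with walk-counting gates for it that is symmetric under the even permutations of
the labels of the places of the first `R` rows and has rank `d` has at least `5 ^ k` gates, if
`3 (d + 1) (k + 1) + 2 ≤ R` and `(log_5 (H (n + 1) ^ 2) + 2) (16 k + 2) ≤ n`; for circuits of
counting gates `2 (d + 1) + 2 ≤ R` is enough.
(3) Every circuit for it can be made symmetric on any `r` of the blocks of five labels at the cost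
of a factor `60 ^ r` in size. -/

namespace Pool.Agent.Results.MP_2af48a_lc.LocalSymmetrySC

open Pool.Agent.H870R2.LS

theorem result :
    (∀ (H n : ℕ) (h : 0 < H),
      ∃ (Q : Type) (_ : Fintype Q) (C : LCkt (Inp (TEl H n)) Q),
        (∀ x, C.Val x C.out ↔ Tem H n h x) ∧
        (∀ g, (C.ins g).ncard ≤ 25) ∧
        (∀ j, {g | C.lay g = j}.ncard ≤ 150 * (n + 1)) ∧
        (∀ g, C.lay g ≤ 2 * H * (n + 1) + 2) ∧
        (∀ (v : Pla H n) (a : Equiv.Perm (Fin 5)) (p : Equiv.Perm (TEl H n)),
          (∀ c, p (tblk v c) = tblk v (a c)) → (∀ u, u ∉ Set.range (tblk v) → p u = u) →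
          ∃ φ, C.IsAut (inpPerm p) φ)) ∧
    (∀ (H n : ℕ) (h : 0 < H) (Q : Type) [Fintype Q] (C : Ckt (Inp (TEl H n)) Q),
      (∀ x, C.val x C.out = true ↔ Tem H n h x) →
      ∀ R : ℕ, R ≤ H → (∀ v : Pla H n, v.1.val < R → C.SymOn (tblk v)) →
      ∀ k : ℕ, 1 ≤ k → (Nat.log 5 (H * (n + 1) * (n + 1)) + 2) * (16 * k + 2) ≤ n →
        (3 * (C.rank C.out + 1) * (k + 1) + 2 ≤ R ∨
          (∀ g N N', N 1 = N' 1 → C.F g N = C.F g N') ∧ 2 * (C.rank C.out + 1) + 2 ≤ R) →
        5 ^ k ≤ Fintype.card Q) ∧
    (∀ (H n : ℕ) (h : 0 < H) (Q : Type) [Fintype Q] (C : Ckt (Inp (TEl H n)) Q),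
      (∀ x, C.val x C.out = true ↔ Tem H n h x) →
      ∀ S : Finset (Pla H n),
        ∃ (Q' : Type) (_ : Fintype Q') (C' : Ckt (Inp (TEl H n)) Q'),
          (∀ x, C'.val x C'.out = true ↔ Tem H n h x) ∧ (∀ v ∈ S, C'.SymOn (tblk v)) ∧
          Fintype.card Q' = 60 ^ S.card * Fintype.card Q + 1 ∧
          C'.rank C'.out = C.rank C.out + 1) :=
  ⟨fun H n h => sc_upper H n h,
    fun H n h _ _ C hC R hRH hs k hk hn hR => tem_final H n h C hC R hRH hs k hk hn hR,
    fun H n h _ _ C hC S => symmetrize_tem H n h C hC S⟩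

end Pool.Agent.Results.MP_2af48a_lc.LocalSymmetrySC
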