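import Mathlib
import Pool.Agent.H540R2.Circ
import Pool.Agent.H657R5.Defs
import Pool.Agent.H657R5.Main
import Pool.Agent.H657R5.Fin

/-!
# NC against narrow circuits which read at most (1 - eps) n log n parities

Oblivious programs (a fixed sequence of arbitrary linear forms over the field with two elements is
read) of length at most `(1 - ε) n log₂ n`, even nondeterministic ones, need `2 ^ (n ^ δ)` memory
states for a function with polynomial size circuits of depth `O(log n log log n)`.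
-/

set_option autoImplicit false

namespace Pool.Agent.Results.MP_2af48a_lc.ObliviousLinearPrograms

open Pool.Agent.H657R5 Pool.Agent.H540R2

/-- (1) For every `ε > 0` some `f` with polynomial size circuits of depth `O(log n log log n)` is
not computed, nor is its complement, by nondeterministic oblivious linear programs with at most
`(1 - ε) n log₂ n` steps and fewer than `2 ^ (n ^ δ)` states. (2) Explicit bound for
`Tr(x ^ (2 ^ (r + 1) - 1))` and its complement. (3) The same on average for deterministic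
programs. -/
theorem result :
    (∀ ε : ℝ, 0 < ε → ε < 1 → ∃ f : (n : ℕ) → (Fin n → Bool) → Bool,
      (∃ c : ℕ, ∀ n ≥ 1, ∃ C : Circuit n, (∀ x, C.eval x = f n x) ∧ C.size ≤ n ^ c + c ∧
        C.depth ≤ c * ((Nat.log 2 n + 1) * (Nat.log 2 (Nat.log 2 n + 1) + 1))) ∧
      ∃ δ : ℝ, 0 < δ ∧ ∃ n₀ : ℕ, ∀ n ≥ n₀, ∀ (L w : ℕ) (P : Prog (Fin n → ZMod 2) w) (c : Bool),
        (∀ x, P.Accepts L (bits x) ↔ f n x = c) → (L : ℝ) ≤ (1 - ε) * n * Real.logb 2 n →
        (2 : ℝ) ^ ((n : ℝ) ^ δ) ≤ w) ∧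
    (∀ (K : Type) [Field K] [Fintype K] [Algebra (ZMod 2) K] (n r m d w L : ℕ),
      Module.finrank (ZMod 2) K = n → 1 ≤ r → m + d ≤ n → L ≤ r * m →
      (∀ (c : ZMod 2) (P : Prog K w), (∀ x, P.Accepts L x ↔ hard r x = c) →
        2 ^ d ≤ (2 * w ^ r + 1) ^ (2 ^ r) * 2 ^ (2 * r + 1)) ∧
      ∀ P : DProg K w,
        |2 * (Nat.card {x : K // P.output L x = hard r x} : ℝ) - Nat.card K| ^ (2 ^ r) * 2 ^ d
          ≤ (w ^ r * Nat.card K) ^ (2 ^ r) * 2 ^ (2 * r + 1)) := by
  refine ⟨fun ε h0 h1 => ⟨hardS ε, upper ε h0 h1, lower ε h0 h1⟩, ?_⟩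
  intro K _ _ _ n r m d w L hn hr hmd hL
  exact ⟨fun c P hP => ndet n r m d w L hn hr hmd hL c P hP,
    fun P => det n r m d w L hn hr hmd hL P⟩

end Pool.Agent.Results.MP_2af48a_lc.ObliviousLinearPrograms
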