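import Mathlib
import Pool.Agent.H540R2.Circ
import Pool.Agent.H540R2.Lift.Defs
import Pool.Agent.H540R2.Lift.NegDefs
import Pool.Agent.H540R2.Lift.Final3

/-!
# Monotone SC is not contained in NC with few NOT gates

There are functions in non-uniform monotone SC (polynomial size, polylogarithmic width, no NOT
gates) such that every circuit of polynomial (and even quasi-polynomial) size and polylogarithmic
depth for them has at least `log n - O(log log n)` NOT gates. The case of no NOT gates separates
monotone SC from monotone NC.
-/

set_option autoImplicit false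

namespace Pool.Agent.Results.MP_2af48a_lc.SCNeedsNegations

open Pool.Agent.H540R2

/-- For every `A` there is a function `f` in non-uniform monotone SC such that, for some `c` and
all large `n`, every circuit computing `f n` with at most `2 ^ (log₂ n) ^ A` gates satisfies
`2 ^ (number of NOT gates) * depth ≥ n / (log₂ n) ^ c`. -/
theorem result : ∀ A : ℕ, ∃ f : (n : ℕ) → (Fin n → Bool) → Bool, MonoSC f ∧
    ∃ c n₀ : ℕ, ∀ n ≥ n₀, ∀ C : Circuit n, (∀ x, C.eval x = f n x) →
      C.size ≤ 2 ^ (Nat.log 2 n) ^ A → n ≤ (Nat.log 2 n) ^ c * (2 ^ C.nots * C.depth) :=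
  Pool.Agent.H540R2.Lift.monoSC_neg

end Pool.Agent.Results.MP_2af48a_lc.SCNeedsNegations
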